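import Pool.Agent.Y142.ZO.Stm

/-!
# Project ZO: task ALG
-/

set_option autoImplicit false

open Matrix Polynomial

namespace Pool.Agent.Y142.ZO

section
variable {F : Type} [Field F] {N : ℕ} {B : Matrix (Fin N) (Fin N) F}

theorem bil_add_left (x x' y : Fin N → F) : bil B (x + x') y = bil B x y + bil B x' y := by
  unfold bil; rw [add_dotProduct]

theorem bil_add_right (x y y' : Fin N → F) : bil B x (y + y') = bil B x y + bil B x y' := by
  unfold bil; rw [mulVec_add, dotProduct_add]

theorem bil_smul_left (a : F) (x y : Fin N → F) : bil B (a • x) y = a * bil B x y := by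
  unfold bil; rw [smul_dotProduct, smul_eq_mul]

theorem bil_smul_right (a : F) (x y : Fin N → F) : bil B x (a • y) = a * bil B x y := by
  unfold bil; rw [mulVec_smul, dotProduct_smul, smul_eq_mul]

theorem bil_zero_left (y : Fin N → F) : bil B 0 y = 0 := by
  unfold bil; rw [zero_dotProduct]

theorem bil_zero_right (y : Fin N → F) : bil B y 0 = 0 := by
  unfold bil; rw [mulVec_zero, dotProduct_zero]

theorem bil_sub_left (x x' y : Fin N → F) : bil B (x - x') y = bil B x y - bil B x' y := by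
  unfold bil; rw [sub_dotProduct]

theorem bil_sub_right (x y y' : Fin N → F) : bil B x (y - y') = bil B x y - bil B x y' := by
  unfold bil; rw [mulVec_sub, dotProduct_sub]

theorem bil_symm (hB : Bᵀ = B) (x y : Fin N → F) : bil B x y = bil B y x := by
  unfold bil
  rw [dotProduct_mulVec, ← mulVec_transpose, hB, dotProduct_comm]

theorem skew_bil (hB : Bᵀ = B) {Z : Matrix (Fin N) (Fin N) F} (hZ : Skew B Z) (x y : Fin N → F) :
    bil B (Z *ᵥ x) y = - bil B x (Z *ᵥ y) := by
  rw [bil_symm hB (Z *ᵥ x) y]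
  unfold bil
  rw [mulVec_mulVec, mulVec_mulVec, dotProduct_mulVec, ← mulVec_transpose, hZ, neg_mulVec,
    neg_dotProduct, dotProduct_comm]

theorem skew_self [CharZero F] (hB : Bᵀ = B) {Z : Matrix (Fin N) (Fin N) F} (hZ : Skew B Z)
    (x : Fin N → F) : bil B (Z *ᵥ x) x = 0 := by
  have h1 := skew_bil hB hZ x x
  rw [bil_symm hB x] at h1
  have h2 : (2 : F) * bil B (Z *ᵥ x) x = 0 := by linear_combination h1
  rcases mul_eq_zero.1 h2 with h | h
  · exact absurd h two_ne_zero
  · exact h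

theorem wedge_mulVec (a b x : Fin N → F) :
    wedge B a b *ᵥ x = bil B a x • b - bil B b x • a := by
  unfold wedge bil
  rw [sub_mulVec, vecMulVec_mulVec, vecMulVec_mulVec, dotProduct_mulVec, dotProduct_mulVec]
  ext i
  simp [mul_comm]

/-- the main algebraic alternative -/
theorem alg [CharZero F] (hB : Bᵀ = B) {T : Matrix (Fin N) (Fin N) F} {v : Fin N → F}
    {𝔤 : Submodule F (Matrix (Fin N) (Fin N) F)} (hskew : ∀ Z ∈ 𝔤, Skew B Z)
    (hbr : ∀ X ∈ 𝔤, ∀ Y ∈ 𝔤, X * Y - Y * X ∈ 𝔤) (hsplit : ∀ Z ∈ 𝔤, wedge B v (Z *ᵥ v) ∈ 𝔤)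
    (hT : T ∈ 𝔤) (hker : KerLine T v) (hv : bil B v v ≠ 0) :
    (∃ W' W : Submodule F (Fin N → F), W' < W ∧ ∀ Z ∈ 𝔤, ∀ w ∈ W, Z *ᵥ w ∈ W') ∨
    ∃ β₁ β₂ : F, β₁ ≠ 0 ∧ β₂ ≠ 0 ∧ ∀ s t : F, ∃ T' ∈ 𝔤, ∃ y, KerLine T' y ∧
      bil B y y = bil B v v * (1 + β₁ * s ^ 2 + β₂ * t ^ 2) := by
  classical
  -- the subspace `M = 𝔤 v`
  let ev : Matrix (Fin N) (Fin N) F →ₗ[F] (Fin N → F) :=
    { toFun := fun Z => Z *ᵥ v
      map_add' := fun a b => add_mulVec a b v
      map_smul' := fun a b => by rw [smul_mulVec]; rfl }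
  have hev : ∀ Z, ev Z = Z *ᵥ v := fun _ => rfl
  set M : Submodule F (Fin N → F) := 𝔤.map ev with hM
  have hMmem : ∀ u, u ∈ M ↔ ∃ Z ∈ 𝔤, Z *ᵥ v = u := fun u => Submodule.mem_map
  have hMv : ∀ u ∈ M, bil B v u = 0 := by
    intro u hu
    obtain ⟨Z, hZ, rfl⟩ := (hMmem u).1 hu
    rw [bil_symm hB]
    exact skew_self hB (hskew Z hZ) v
  have hw : ∀ u ∈ M, wedge B v u ∈ 𝔤 := by
    intro u hu
    obtain ⟨Z, hZ, rfl⟩ := (hMmem u).1 hu
    exact hsplit Z hZ
  have hwv : ∀ u ∈ M, wedge B v u *ᵥ v = bil B v v • u := by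
    intro u hu
    rw [wedge_mulVec, bil_symm hB u v, hMv u hu, zero_smul, sub_zero]
  have hTv : T *ᵥ v = 0 := hker.2.1
  -- `T` maps `M` onto `M`
  have hTM : ∀ u ∈ M, T *ᵥ u ∈ M := by
    intro u hu
    obtain ⟨Z, hZ, rfl⟩ := (hMmem u).1 hu
    refine (hMmem _).2 ⟨T * Z - Z * T, hbr T hT Z hZ, ?_⟩
    rw [sub_mulVec, ← mulVec_mulVec, ← mulVec_mulVec, hTv, mulVec_zero, sub_zero]
  have hTinj : ∀ u ∈ M, T *ᵥ u = 0 → u = 0 := by
    intro u hu h0
    obtain ⟨a, rfl⟩ := hker.2.2 u h0
    have h1 := hMv _ hu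
    rw [bil_smul_right] at h1
    rcases mul_eq_zero.1 h1 with h | h
    · rw [h, zero_smul]
    · exact absurd h hv
  let TM : M →ₗ[F] M := (T.mulVecLin).restrict (p := M) (q := M) (fun u hu => by
    rw [mulVecLin_apply]; exact hTM u hu)
  have hTMinj : Function.Injective TM := by
    rw [← LinearMap.ker_eq_bot, LinearMap.ker_eq_bot']
    intro u hu
    apply Subtype.ext
    refine hTinj u.1 u.2 ?_
    have := congrArg Subtype.val hu
    rw [LinearMap.coe_restrict_apply, mulVecLin_apply] at this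
    exact this
  have hTMsurj : ∀ u ∈ M, ∃ u' ∈ M, T *ᵥ u' = u := by
    intro u hu
    obtain ⟨u', hu'⟩ := (LinearMap.injective_iff_surjective.1 hTMinj) ⟨u, hu⟩
    refine ⟨u'.1, u'.2, ?_⟩
    have := congrArg Subtype.val hu'
    rw [LinearMap.coe_restrict_apply, mulVecLin_apply] at this
    exact this
  have hskewT := hskew T hT
  by_cases hiso : ∀ u ∈ M, bil B u u = 0
  · -- the isotropic case
    left
    have hiso2 : ∀ u ∈ M, ∀ u' ∈ M, bil B u u' = 0 := by
      intro u hu u' hu'
      have h1 := hiso (u + u') (M.add_mem hu hu')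
      rw [bil_add_left, bil_add_right, bil_add_right, hiso u hu, hiso u' hu', bil_symm hB u' u] at h1
      have h2 : (2 : F) * bil B u u' = 0 := by linear_combination h1
      rcases mul_eq_zero.1 h2 with h | h
      · exact absurd h two_ne_zero
      · exact h
    have hvM : v ∉ M := fun h => hv (hMv v h)
    refine ⟨M, M ⊔ Submodule.span F {v}, ?_, ?_⟩
    · refine lt_of_le_of_ne le_sup_left fun h => hvM ?_
      rw [h]
      exact (le_sup_right : Submodule.span F {v} ≤ _) (Submodule.mem_span_singleton_self v)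
    · intro Z hZ w hw'
      obtain ⟨u, hu, u', hu', rfl⟩ := Submodule.mem_sup.1 hw'
      obtain ⟨a, rfl⟩ := Submodule.mem_span_singleton.1 hu'
      have hZv : Z *ᵥ v ∈ M := (hMmem _).2 ⟨Z, hZ, rfl⟩
      rw [mulVec_add, mulVec_smul]
      refine M.add_mem ?_ (M.smul_mem _ hZv)
      have h1 := hbr Z hZ _ (hw u hu)
      have h2 : (Z * wedge B v u - wedge B v u * Z) *ᵥ v = bil B v v • (Z *ᵥ u) := by
        rw [sub_mulVec, ← mulVec_mulVec, ← mulVec_mulVec, hwv u hu, mulVec_smul, wedge_mulVec,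
          hMv _ hZv, hiso2 u hu _ hZv, zero_smul, zero_smul, sub_zero, sub_zero]
      have h3 : bil B v v • (Z *ᵥ u) ∈ M := (hMmem _).2 ⟨_, h1, h2⟩
      have h4 := M.smul_mem (bil B v v)⁻¹ h3
      rwa [smul_smul, inv_mul_cancel₀ hv, one_smul] at h4
  · -- the other case
    right
    push Not at hiso
    obtain ⟨u₁, hu₁, hb₁⟩ := hiso
    have key : ∃ w ∈ M, bil B w w ≠ 0 ∧ bil B (T *ᵥ w) (T *ᵥ w) ≠ 0 := by
      by_cases h1 : bil B (T *ᵥ u₁) (T *ᵥ u₁) = 0
      · obtain ⟨u₂, hu₂, hTu₂⟩ := hTMsurj u₁ hu₁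
        by_cases h2 : bil B u₂ u₂ = 0
        · have hval : ∀ τ : F, bil B (u₁ + τ • u₂) (u₁ + τ • u₂) = bil B u₁ u₁ + 2 * τ * bil B u₁ u₂ := by
            intro τ
            rw [bil_add_left, bil_add_right, bil_add_right, bil_smul_left, bil_smul_left,
              bil_smul_right, bil_smul_right, h2, bil_symm hB u₂ u₁]
            ring
          have hval2 : ∀ τ : F, bil B (T *ᵥ (u₁ + τ • u₂)) (T *ᵥ (u₁ + τ • u₂)) =
              τ ^ 2 * bil B u₁ u₁ := by
            intro τ
            rw [mulVec_add, mulVec_smul, hTu₂, bil_add_left, bil_add_right, bil_add_right,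
              bil_smul_left, bil_smul_left, bil_smul_right, bil_smul_right, h1,
              bil_symm hB u₁ (T *ᵥ u₁), skew_self hB hskewT]
            ring
          by_cases h3 : bil B u₁ u₁ + 2 * bil B u₁ u₂ = 0
          · refine ⟨u₁ + (-1 : F) • u₂, M.add_mem hu₁ (M.smul_mem _ hu₂), ?_, ?_⟩
            · rw [hval]
              intro h4
              apply hb₁
              have h5 : (2 : F) * bil B u₁ u₁ = 0 := by linear_combination h3 + h4
              rcases mul_eq_zero.1 h5 with h | h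
              · exact absurd h two_ne_zero
              · exact h
            · rw [hval2]
              simpa using hb₁
          · refine ⟨u₁ + (1 : F) • u₂, M.add_mem hu₁ (M.smul_mem _ hu₂), ?_, ?_⟩
            · rw [hval]
              simpa using h3
            · rw [hval2]
              simpa using hb₁
        · exact ⟨u₂, hu₂, h2, by rw [hTu₂]; exact hb₁⟩
      · exact ⟨u₁, hu₁, hb₁, h1⟩
    obtain ⟨w, hwM, hw1, hw2⟩ := key
    refine ⟨bil B v v * bil B w w, bil B v v * bil B (T *ᵥ w) (T *ᵥ w), mul_ne_zero hv hw1,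
      mul_ne_zero hv hw2, fun s t => ?_⟩
    set w' : Fin N → F := s • w + t • (T *ᵥ w) with hw'
    have hw'M : w' ∈ M := M.add_mem (M.smul_mem _ hwM) (M.smul_mem _ (hTM w hwM))
    have hTw'M : T *ᵥ w' ∈ M := hTM w' hw'M
    have hvw' : bil B v w' = 0 := hMv w' hw'M
    have hvTw' : bil B v (T *ᵥ w') = 0 := hMv _ hTw'M
    set y : Fin N → F := v - bil B v v • w' with hy
    have hvy : bil B v y = bil B v v := by
      rw [hy, bil_sub_right, bil_smul_right, hvw', mul_zero, sub_zero]
    have hTw'y : bil B (T *ᵥ w') y = 0 := by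
      rw [hy, bil_sub_right, bil_smul_right, skew_self hB hskewT, bil_symm hB, hvTw', mul_zero,
        sub_zero]
    refine ⟨T + wedge B v (T *ᵥ w'), 𝔤.add_mem hT (hw _ hTw'M), y, ⟨?_, ?_, ?_⟩, ?_⟩
    · intro h0
      rw [h0, bil_zero_right] at hvy
      exact hv hvy.symm
    · rw [add_mulVec, wedge_mulVec, hvy, hTw'y, zero_smul, sub_zero, hy, mulVec_sub, mulVec_smul,
        hTv, zero_sub, neg_add_cancel]
    · intro x hx
      rw [add_mulVec, wedge_mulVec] at hx
      have h1 : bil B v (T *ᵥ x) = 0 := by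
        have := skew_bil hB hskewT v x
        rw [hTv, bil_zero_left] at this
        linear_combination this
      have h2 : bil B (T *ᵥ w') x = 0 := by
        have h3 := congrArg (bil B v) hx
        rw [bil_add_right, bil_sub_right, bil_smul_right, bil_smul_right, bil_zero_right, h1,
          hvTw'] at h3
        have h4 : bil B (T *ᵥ w') x * bil B v v = 0 := by linear_combination -h3
        rcases mul_eq_zero.1 h4 with h | h
        · exact h
        · exact absurd h hv
      rw [h2, zero_smul, sub_zero, ← mulVec_smul, ← mulVec_add] at hx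
      obtain ⟨a, ha⟩ := hker.2.2 _ hx
      refine ⟨a, ?_⟩
      have h5 : bil B v x = a * bil B v v := by
        have h6 := congrArg (bil B v) ha
        rw [bil_add_right, bil_smul_right, hvw', mul_zero, add_zero, bil_smul_right] at h6
        exact h6
      rw [h5] at ha
      rw [hy, smul_sub, smul_smul, ← ha, add_sub_cancel_right]
    · have h1 : bil B w' w' = s ^ 2 * bil B w w + t ^ 2 * bil B (T *ᵥ w) (T *ᵥ w) := by
        rw [hw']
        simp only [bil_add_left, bil_add_right, bil_smul_left, bil_smul_right]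
        rw [bil_symm hB w (T *ᵥ w), skew_self hB hskewT]
        ring
      rw [hy, bil_sub_left, bil_sub_right, bil_sub_right, bil_smul_left, bil_smul_left,
        bil_smul_right, bil_smul_right, bil_symm hB w' v, hvw', h1]
      ring

end

theorem alg_main : S_ALG := by
  intro F _ _ N B T v 𝔤 hB hskew hbr hsplit hT hker hv
  exact alg hB hskew hbr hsplit hT hker hv

end Pool.Agent.Y142.ZO
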