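import Mathlib

set_option autoImplicit false

/-!
Project Y142-ZO (owner helper142), MP_c184fc_ag (very famous, Tate conjecture in characteristic zero):
a zero-one law in `ℓ` for Tate classes in orthogonal compatible systems of odd dimension.
Statements of the self-contained sub-tasks.
-/

open Matrix Polynomial Filter Topology NumberField IsDedekindDomain

namespace Pool.Agent.Y142.ZO

section alg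
variable {F : Type} [Field F] {N : ℕ}

/-- the bilinear form with Gram matrix `B` -/
def bil (B : Matrix (Fin N) (Fin N) F) (x y : Fin N → F) : F := x ⬝ᵥ B *ᵥ y

/-- `T` is skew-adjoint for `B` -/
def Skew (B T : Matrix (Fin N) (Fin N) F) : Prop := (B * T)ᵀ = -(B * T)

/-- `g` is an isometry of `B` -/
def Isom (B g : Matrix (Fin N) (Fin N) F) : Prop := gᵀ * B * g = B

/-- the skew-adjoint map `x ↦ B(a,x) b - B(b,x) a` -/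
def wedge (B : Matrix (Fin N) (Fin N) F) (a b : Fin N → F) : Matrix (Fin N) (Fin N) F :=
  vecMulVec b (a ᵥ* B) - vecMulVec a (b ᵥ* B)

/-- the kernel of `T` is the line spanned by `y` -/
def KerLine (T : Matrix (Fin N) (Fin N) F) (y : Fin N → F) : Prop :=
  y ≠ 0 ∧ T *ᵥ y = 0 ∧ ∀ x, T *ᵥ x = 0 → ∃ a : F, x = a • y

end alg

/-- task DET, part 1 -/
def S_DET : Prop := ∀ (F : Type) [Field F] [CharZero F] (N : ℕ), Odd N →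
  ∀ (B T : Matrix (Fin N) (Fin N) F) (y : Fin N → F) (q : F[X]),
    Bᵀ = B → Skew B T → T *ᵥ y = 0 → T.charpoly = X * q →
    IsSquare (q.eval 0 * bil B y y * B.det)

/-- task DET, part 2 -/
def S_ISO : Prop := ∀ (F : Type) [Field F] [CharZero F] (N : ℕ), Odd N →
  ∀ (B g : Matrix (Fin N) (Fin N) F) (y : Fin N → F) (Q : F[X]),
    Bᵀ = B → B.det ≠ 0 → Isom B g → g *ᵥ y = y → g.charpoly = (X - 1) * Q →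
    IsSquare (Q.eval 1 * Q.eval (-1) * bil B y y * B.det)

/-- task LINE, part 1 -/
def S_LINE : Prop := ∀ (F : Type) [Field F] [CharZero F] (N : ℕ)
  (B g : Matrix (Fin N) (Fin N) F) (Q : F[X]),
    Bᵀ = B → B.det ≠ 0 → Isom B g → g.charpoly = (X - 1) * Q → Q.eval 1 ≠ 0 →
    ∃ y, KerLine (g - 1) y ∧ bil B y y ≠ 0

/-- task LINE, part 2 -/
def S_QZ : Prop := ∀ (F : Type) [Field F] [CharZero F] (N : ℕ)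
  (B T : Matrix (Fin N) (Fin N) F) (y : Fin N → F) (q : F[X]),
    Bᵀ = B → B.det ≠ 0 → Skew B T → KerLine T y → bil B y y ≠ 0 → T.charpoly = X * q →
    q.eval 0 ≠ 0

/-- `X` is a tangent vector at the identity of the image of `ρ` -/
def IsTangent (ℓ : ℕ) [Fact ℓ.Prime] {N : ℕ} {G : Type} [Group G]
    (ρ : G →* Matrix (Fin N) (Fin N) ℚ_[ℓ]) (X : Matrix (Fin N) (Fin N) ℚ_[ℓ]) : Prop :=
  ∃ σ : ℕ → G, Tendsto (fun n : ℕ => ((ℓ : ℚ_[ℓ]) ^ n)⁻¹ • (ρ (σ n) - 1)) atTop (𝓝 X)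

/-- task TAN: the tangent vectors form a Lie algebra, stable under conjugation -/
def S_TAN : Prop := ∀ (ℓ : ℕ) [Fact ℓ.Prime] (N : ℕ) (G : Type) [Group G]
  (ρ : G →* Matrix (Fin N) (Fin N) ℚ_[ℓ]),
  ∃ 𝔤 : Submodule ℚ_[ℓ] (Matrix (Fin N) (Fin N) ℚ_[ℓ]),
    (∀ X, X ∈ 𝔤 ↔ IsTangent ℓ ρ X) ∧
    (∀ X ∈ 𝔤, ∀ Y ∈ 𝔤, X * Y - Y * X ∈ 𝔤) ∧
    (∀ g : G, ∀ X ∈ 𝔤, ρ g * X * ρ g⁻¹ ∈ 𝔤) ∧
    (∀ B : Matrix (Fin N) (Fin N) ℚ_[ℓ], Bᵀ = B → (∀ g, Isom B (ρ g)) → ∀ X ∈ 𝔤, Skew B X)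

/-- `A ≡ 1` modulo `ℓ ^ 2` -/
def Near (ℓ : ℕ) [Fact ℓ.Prime] {N : ℕ} (A : Matrix (Fin N) (Fin N) ℚ_[ℓ]) : Prop :=
  ∀ i j, ‖(A - 1) i j‖ ≤ ((ℓ : ℝ) ^ 2)⁻¹

/-- task LOG: logarithms of elements near the identity -/
def S_LOG : Prop := ∀ (ℓ : ℕ) [Fact ℓ.Prime] (N : ℕ) (G : Type) [Group G]
  (ρ : G →* Matrix (Fin N) (Fin N) ℚ_[ℓ]) (σ : G), Near ℓ (ρ σ) →
    (∃ X, IsTangent ℓ ρ X ∧ ∀ x, X *ᵥ x = 0 ↔ ρ σ *ᵥ x = x) ∧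
    ∀ n : ℕ, 0 < n → ∀ x, ρ (σ ^ n) *ᵥ x = x → ρ σ *ᵥ x = x

/-- task EXP: what the tangent vectors do to subspaces is done by an open subgroup -/
def S_EXP : Prop := ∀ (ℓ : ℕ) [Fact ℓ.Prime] (N : ℕ) (G : Type) [Group G] [TopologicalSpace G]
  [IsTopologicalGroup G] (ρ : G →* Matrix (Fin N) (Fin N) ℚ_[ℓ]), Continuous ρ →
  ∀ W' W : Submodule ℚ_[ℓ] (Fin N → ℚ_[ℓ]), W' ≤ W →
    (∀ X, IsTangent ℓ ρ X → ∀ w ∈ W, X *ᵥ w ∈ W') →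
    ∃ U : Subgroup G, IsOpen (U : Set G) ∧ ∀ σ ∈ U, ∀ w ∈ W, ρ σ *ᵥ w - w ∈ W'

/-- task POW -/
def S_POW : Prop := ∀ (ℓ : ℕ) [Fact ℓ.Prime] (N : ℕ) (G : Type) [Group G] [TopologicalSpace G]
  [IsTopologicalGroup G] [CompactSpace G] (ρ : G →* Matrix (Fin N) (Fin N) ℚ_[ℓ]), Continuous ρ →
  (∃ U : Subgroup G, IsOpen (U : Set G) ∧ ∀ σ ∈ U, Near ℓ (ρ σ)) ∧
  ∀ U : Subgroup G, IsOpen (U : Set G) → ∀ σ : G, ∃ n : ℕ, 0 < n ∧ σ ^ n ∈ U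

/-- task SPEC -/
def S_SPEC : Prop := ∀ (F : Type) [Field F] [CharZero F] (N : ℕ)
  (B g : Matrix (Fin N) (Fin N) F) (v : Fin N → F) (Q : F[X])
  (𝔤 : Submodule F (Matrix (Fin N) (Fin N) F)),
    Bᵀ = B → B.det ≠ 0 → Isom B g → g *ᵥ v = v → bil B v v ≠ 0 →
    g.charpoly = (X - 1) * Q →
    (∀ x y z : AlgebraicClosure F, aeval x Q = 0 → aeval y Q = 0 → aeval z Q = 0 → x * y ≠ z) →
    (∀ Z ∈ 𝔤, Skew B Z) → (∀ Z ∈ 𝔤, g * Z * g⁻¹ ∈ 𝔤) →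
    ∀ Z ∈ 𝔤, wedge B v (Z *ᵥ v) ∈ 𝔤

/-- task ALG -/
def S_ALG : Prop := ∀ (F : Type) [Field F] [CharZero F] (N : ℕ)
  (B T : Matrix (Fin N) (Fin N) F) (v : Fin N → F)
  (𝔤 : Submodule F (Matrix (Fin N) (Fin N) F)),
    Bᵀ = B → (∀ Z ∈ 𝔤, Skew B Z) → (∀ X ∈ 𝔤, ∀ Y ∈ 𝔤, X * Y - Y * X ∈ 𝔤) →
    (∀ Z ∈ 𝔤, wedge B v (Z *ᵥ v) ∈ 𝔤) → T ∈ 𝔤 → KerLine T v → bil B v v ≠ 0 →
    (∃ W' W : Submodule F (Fin N → F), W' < W ∧ ∀ Z ∈ 𝔤, ∀ w ∈ W, Z *ᵥ w ∈ W') ∨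
    ∃ β₁ β₂ : F, β₁ ≠ 0 ∧ β₂ ≠ 0 ∧ ∀ s t : F, ∃ T' ∈ 𝔤, ∃ y, KerLine T' y ∧
      bil B y y = bil B v v * (1 + β₁ * s ^ 2 + β₂ * t ^ 2)

/-- task VAL, part 1 -/
def S_VAL : Prop := ∀ (ℓ : ℕ) [Fact ℓ.Prime], ℓ ≠ 2 → ∀ β₁ β₂ : ℚ_[ℓ], β₁ ≠ 0 → β₂ ≠ 0 →
  ∃ s t : ℚ_[ℓ], 1 + β₁ * s ^ 2 + β₂ * t ^ 2 ≠ 0 ∧
    Odd (Padic.valuation (1 + β₁ * s ^ 2 + β₂ * t ^ 2))

/-- task VAL, part 2 -/
def S_VAL2 : Prop := ∀ (ℓ : ℕ) [Fact ℓ.Prime] (β : ℚ_[ℓ]), β ≠ 0 →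
  ∃ s : ℚ_[ℓ], 1 + β * s ^ 2 ≠ 0 ∧ ¬ IsSquare (1 + β * s ^ 2)

/-- task APP -/
def S_APP : Prop := ∀ (ℓ : ℕ) [Fact ℓ.Prime] (N : ℕ), Odd N → ∀ (G : Type) [Group G]
  [TopologicalSpace G] [IsTopologicalGroup G] (ρ : G →* Matrix (Fin N) (Fin N) ℚ_[ℓ]),
  Continuous ρ → ∀ B : Matrix (Fin N) (Fin N) ℚ_[ℓ], Bᵀ = B → B.det ≠ 0 →
  (∀ g, Isom B (ρ g)) → ∀ (T : Matrix (Fin N) (Fin N) ℚ_[ℓ]) (y : Fin N → ℚ_[ℓ]),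
  IsTangent ℓ ρ T → KerLine T y → bil B y y ≠ 0 →
  ∃ O : Set G, IsOpen O ∧ O.Nonempty ∧ ∀ σ ∈ O, ∃ Q : ℚ_[ℓ][X],
    (ρ σ).charpoly = (X - 1) * Q ∧ Q.eval 1 * Q.eval (-1) ≠ 0 ∧
    IsSquare (Q.eval 1 * Q.eval (-1) * bil B y y * B.det) ∧
    ∀ n : ℕ, 0 < n → IsCoprime Q (X ^ n - 1)

/-- the absolute Galois group, with the profinite (Krull) topology -/
abbrev GK (K : Type) [Field K] : Type := Gal(AlgebraicClosure K/K)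

/-- `σ` is a Frobenius element at the prime `v` of `K` -/
def IsFrobenius {K : Type} [Field K] [NumberField K] (v : HeightOneSpectrum (𝓞 K)) (σ : GK K) :
    Prop :=
  ∃ Q : Ideal (𝓞 (AlgebraicClosure K)), Q.IsMaximal ∧
    Q.comap (algebraMap (𝓞 K) (𝓞 (AlgebraicClosure K))) = v.asIdeal ∧
    ∀ x : 𝓞 (AlgebraicClosure K), σ • x - x ^ Ideal.absNorm v.asIdeal ∈ Q

/-- task FROB -/
def S_FROB : Prop := ∀ (K : Type) [Field K] [NumberField K] (O : Set (GK K)), IsOpen O →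
  O.Nonempty → ∀ T : Set (HeightOneSpectrum (𝓞 K)), T.Finite →
  ∃ v, v ∉ T ∧ ∃ σ : GK K, IsFrobenius v σ ∧ σ⁻¹ ∈ O

/-- a nonzero subquotient on which an open subgroup acts trivially -/
def TateSubquotient (ℓ : ℕ) [Fact ℓ.Prime] {N : ℕ} {G : Type} [Group G] [TopologicalSpace G]
    (ρ : G →* Matrix (Fin N) (Fin N) ℚ_[ℓ]) : Prop :=
  ∃ (U : Subgroup G) (W' W : Submodule ℚ_[ℓ] (Fin N → ℚ_[ℓ])), IsOpen (U : Set G) ∧ W' < W ∧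
    ∀ σ ∈ U, ∀ w ∈ W, ρ σ *ᵥ w - w ∈ W'

/-- task BAD -/
def S_BAD : Prop := ∀ (ℓ : ℕ) [Fact ℓ.Prime] (N : ℕ), Odd N → ∀ (G : Type) [Group G]
  [TopologicalSpace G] [IsTopologicalGroup G] [CompactSpace G]
  (ρ : G →* Matrix (Fin N) (Fin N) ℚ_[ℓ]) (B : Matrix (Fin N) (Fin N) ℚ_[ℓ]),
  Bᵀ = B → B.det ≠ 0 → (∀ g, Isom B (ρ g)) → TateSubquotient ℓ ρ →
  ∀ (σ₁ σ₂ : G) (Q₁ Q₂ : ℚ_[ℓ][X]), (ρ σ₁).charpoly = (X - 1) * Q₁ →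
    (ρ σ₂).charpoly = (X - 1) * Q₂ → (∀ n : ℕ, 0 < n → IsCoprime Q₁ (X ^ n - 1)) →
    (∀ n : ℕ, 0 < n → IsCoprime Q₂ (X ^ n - 1)) →
    IsSquare (Q₁.eval 1 * Q₁.eval (-1) * (Q₂.eval 1 * Q₂.eval (-1)))

/-- task DENS, part 1 -/
def S_DENS : Prop := ∀ (R : Set ℚ) (Bad : Set ℕ), (0 : ℚ) ∉ R → (∀ ℓ ∈ Bad, ℓ.Prime) →
  (∀ M : ℕ, ∃ ℓ : ℕ, M < ℓ ∧ ℓ.Prime ∧ ∃ r ∈ R, Odd (padicValRat ℓ r)) →
  (∀ r ∈ R, ∃ M : ℕ, ∀ ℓ ∈ Bad, M < ℓ → ∀ _ : Fact ℓ.Prime, IsSquare (r : ℚ_[ℓ])) →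
  Tendsto (fun n : ℕ => (Nat.card {ℓ : ℕ // ℓ ≤ n ∧ ℓ ∈ Bad} : ℝ) / (Nat.primeCounting n : ℝ))
    atTop (𝓝 0)

/-- task DENS, part 2 -/
def S_INF : Prop := ∀ r : ℚ, ¬ IsSquare r → ∀ M : ℕ, ∃ ℓ : ℕ, M < ℓ ∧ ∃ _ : Fact ℓ.Prime,
  ¬ IsSquare (r : ℚ_[ℓ])

end Pool.Agent.Y142.ZO
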