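import Pool.Agent.Y142.ZO.Alg
import Pool.Agent.W401.Cheb.Frob

/-!
# Project ZO: the zero-one law
-/

set_option autoImplicit false

open Matrix Polynomial Filter Topology NumberField IsDedekindDomain

namespace Pool.Agent.Y142.ZO

/-! ### polynomials -/

theorem eval_map_rat {F : Type} [Field F] [Algebra ℚ F] (Q : ℚ[X]) (a : ℚ) :
    (Q.map (algebraMap ℚ F)).eval (algebraMap ℚ F a) = algebraMap ℚ F (Q.eval a) := by
  rw [eval_map, eval₂_at_apply]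

theorem coprime_of_roots {Q : ℚ[X]} (h : ∀ n : ℕ, 0 < n → ∀ x : ℂ, aeval x Q = 0 → x ^ n ≠ 1) (n : ℕ)
    (hn : 0 < n) : IsCoprime Q (X ^ n - 1) := by
  have key := Polynomial.isCoprime_iff_aeval_ne_zero_of_isAlgClosed (k := ℚ) ℂ Q (X ^ n - 1)
  refine key.2 fun a => ?_
  by_cases ha : aeval a Q = 0
  · right
    intro h1
    apply h n hn a ha
    simpa [sub_eq_zero] using h1
  · exact Or.inl ha

theorem coprime_map {F : Type} [Field F] [Algebra ℚ F] {Q : ℚ[X]} {n : ℕ}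
    (h : IsCoprime Q (X ^ n - 1)) : IsCoprime (Q.map (algebraMap ℚ F)) (X ^ n - 1) := by
  have h1 := (Polynomial.isCoprime_map (algebraMap ℚ F)).2 h
  simpa using h1

theorem coprime_of_map {F : Type} [Field F] [Algebra ℚ F] {Q : ℚ[X]} {n : ℕ}
    (h : IsCoprime (Q.map (algebraMap ℚ F)) (X ^ n - 1)) : IsCoprime Q (X ^ n - 1) := by
  rw [← Polynomial.isCoprime_map (algebraMap ℚ F)]
  simpa using h

theorem eval_ne_zero_of_coprime {F : Type} [Field F] {Q : F[X]}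
    (h : ∀ n : ℕ, 0 < n → IsCoprime Q (X ^ n - 1)) : Q.eval 1 * Q.eval (-1) ≠ 0 := by
  obtain ⟨a, b, hab⟩ := h 2 two_pos
  have h1 := congrArg (eval 1) hab
  have h2 := congrArg (eval (-1)) hab
  simp only [eval_add, eval_mul, eval_sub, eval_pow, eval_X, eval_one] at h1 h2
  intro h0
  rcases mul_eq_zero.1 h0 with h | h
  · rw [h] at h1
    simp at h1
  · rw [h] at h2
    simp at h2

theorem root_lift {A E : Type} [Field A] [Field E] [IsAlgClosed A] [CharZero A] [CharZero E]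
    (ψ : A →+* E) {Q : ℚ[X]} (hQ : Q ≠ 0) {x : E} (hx : eval₂ (Rat.castHom E) x Q = 0) :
    ∃ r : A, eval₂ (Rat.castHom A) r Q = 0 ∧ ψ r = x := by
  have h1 : (Rat.castHom E) = ψ.comp (Rat.castHom A) := Subsingleton.elim _ _
  have h2 : (Q.map (Rat.castHom A)).Splits := IsAlgClosed.splits _
  have h3 : ((Q.map (Rat.castHom A)).map ψ).roots = (Q.map (Rat.castHom A)).roots.map ψ :=
    h2.roots_map ψ
  have h0 : Q.map (Rat.castHom A) ≠ 0 := (Polynomial.map_ne_zero_iff (Rat.castHom A).injective).2 hQ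
  have h4 : x ∈ ((Q.map (Rat.castHom A)).map ψ).roots := by
    rw [mem_roots ((Polynomial.map_ne_zero_iff ψ.injective).2 h0), IsRoot, Polynomial.map_map, ← h1, eval_map]
    exact hx
  rw [h3, Multiset.mem_map] at h4
  obtain ⟨r, hr, hrx⟩ := h4
  rw [mem_roots h0, IsRoot, eval_map] at hr
  exact ⟨r, hr, hrx⟩

/-- the spectral condition does not depend on the algebraically closed field -/
theorem transfer {Q : ℚ[X]} (hQ : Q ≠ 0)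
    (h : ∀ x y z : ℂ, aeval x Q = 0 → aeval y Q = 0 → aeval z Q = 0 → x * y ≠ z)
    (E : Type) [Field E] [CharZero E] [IsAlgClosed E] (x y z : E)
    (hx : eval₂ (Rat.castHom E) x Q = 0) (hy : eval₂ (Rat.castHom E) y Q = 0)
    (hz : eval₂ (Rat.castHom E) z Q = 0) : x * y ≠ z := by
  intro hxyz
  have hal : Algebra.IsAlgebraic ℚ (AlgebraicClosure ℚ) := by
    have h1 : (DivisionRing.toRatAlgebra : Algebra ℚ (AlgebraicClosure ℚ)) =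
      AlgebraicClosure.instAlgebra ℚ := Subsingleton.elim _ _
    rw [h1]
    exact AlgebraicClosure.isAlgebraic ℚ
  obtain ⟨ψ⟩ : Nonempty (AlgebraicClosure ℚ →+* E) := ⟨(IsAlgClosed.lift : AlgebraicClosure ℚ →ₐ[ℚ] E)⟩
  obtain ⟨φ⟩ : Nonempty (AlgebraicClosure ℚ →+* ℂ) := ⟨(IsAlgClosed.lift : AlgebraicClosure ℚ →ₐ[ℚ] ℂ)⟩
  obtain ⟨r, hr, rfl⟩ := root_lift ψ hQ hx
  obtain ⟨s, hs, rfl⟩ := root_lift ψ hQ hy
  obtain ⟨t, ht, rfl⟩ := root_lift ψ hQ hz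
  have hφ : ∀ r : AlgebraicClosure ℚ, eval₂ (Rat.castHom (AlgebraicClosure ℚ)) r Q = 0 →
      aeval (φ r) Q = 0 := by
    intro r hr
    have h1 := congrArg φ hr
    rw [hom_eval₂, map_zero] at h1
    rw [aeval_def, ← h1]
    congr 1
    exact Subsingleton.elim _ _
  refine h _ _ _ (hφ r hr) (hφ s hs) (hφ t ht) ?_
  rw [← map_mul]
  congr 1
  apply ψ.injective
  rw [map_mul]
  exact hxyz

theorem not_mem_of_lt {K : Type} [Field K] [NumberField K] (v : HeightOneSpectrum (𝓞 K)) {ℓ : ℕ}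
    (hℓ : ℓ.Prime) (h : Ideal.absNorm v.asIdeal < ℓ) : (ℓ : 𝓞 K) ∉ v.asIdeal := by
  intro hmem
  have h1 : ((Ideal.absNorm v.asIdeal : ℕ) : 𝓞 K) ∈ v.asIdeal := Ideal.absNorm_mem v.asIdeal
  have h0 : 0 < Ideal.absNorm v.asIdeal := by
    rw [Nat.pos_iff_ne_zero, Ne, Ideal.absNorm_eq_zero_iff]
    exact v.ne_bot
  have h2 : Nat.Coprime (Ideal.absNorm v.asIdeal) ℓ := by
    rw [Nat.coprime_comm, Nat.Prime.coprime_iff_not_dvd hℓ]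
    intro h3
    exact absurd (Nat.le_of_dvd h0 h3) (not_le.2 h)
  have h3 : (1 : 𝓞 K) ∈ v.asIdeal := by
    have h4 := Nat.isCoprime_iff_coprime.2 h2
    obtain ⟨a, b, hab⟩ := h4
    have h5 : (a : 𝓞 K) * (Ideal.absNorm v.asIdeal : 𝓞 K) + (b : 𝓞 K) * (ℓ : 𝓞 K) = 1 := by
      exact_mod_cast congrArg (Int.cast : ℤ → 𝓞 K) hab
    rw [← h5]
    exact v.asIdeal.add_mem (v.asIdeal.mul_mem_left _ h1) (v.asIdeal.mul_mem_left _ hmem)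
  exact v.isPrime.ne_top ((Ideal.eq_top_iff_one _).2 h3)

/-! ### the system -/

/-- an orthogonal `ℓ`-adic representation with Frobenius polynomials `P v` -/
def Orthogonal (K : Type) [Field K] [NumberField K] (N ℓ : ℕ) [Fact ℓ.Prime]
    (ρ : GK K →* Matrix (Fin N) (Fin N) ℚ_[ℓ]) (B : Matrix (Fin N) (Fin N) ℚ_[ℓ])
    (S : Set (HeightOneSpectrum (𝓞 K))) (P : HeightOneSpectrum (𝓞 K) → ℚ[X]) : Prop :=
  Continuous ρ ∧ Bᵀ = B ∧ B.det ≠ 0 ∧ (∀ g, (ρ g)ᵀ * B * ρ g = B) ∧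
  ∀ v ∉ S, (ℓ : 𝓞 K) ∉ v.asIdeal → ∀ σ : GK K, IsFrobenius v σ →
    (ρ σ⁻¹).charpoly = (P v).map (algebraMap ℚ ℚ_[ℓ])

/-- a place at which `1` is a simple root of the Frobenius polynomial and all other roots are not
roots of unity -/
def GoodPlace {K : Type} [Field K] [NumberField K] (S : Set (HeightOneSpectrum (𝓞 K)))
    (P : HeightOneSpectrum (𝓞 K) → ℚ[X]) (v : HeightOneSpectrum (𝓞 K)) (Q : ℚ[X]) : Prop :=
  v ∉ S ∧ P v = (X - 1) * Q ∧ ∀ n : ℕ, 0 < n → IsCoprime Q (X ^ n - 1)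

section
variable {K : Type} [Field K] [NumberField K] {N : ℕ} {S : Set (HeightOneSpectrum (𝓞 K))}
  {P : HeightOneSpectrum (𝓞 K) → ℚ[X]}

theorem finite_above (ℓ : ℕ) (hℓ : ℓ.Prime) : {v : HeightOneSpectrum (𝓞 K) | (ℓ : 𝓞 K) ∈ v.asIdeal}.Finite := by
  have h0 : (ℓ : 𝓞 K) ≠ 0 := by exact_mod_cast hℓ.ne_zero
  have h1 : (Ideal.span {(ℓ : 𝓞 K)}) ≠ ⊥ := by
    rw [Ne, Ideal.span_singleton_eq_bot]
    exact h0
  refine (Ideal.finite_factors h1).subset ?_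
  intro v hv
  show v.asIdeal ∣ _
  rw [Ideal.dvd_span_singleton]
  exact hv

theorem pow_fix {F : Type} [Field F] {g : Matrix (Fin N) (Fin N) F} {x : Fin N → F}
    (h : g *ᵥ x = x) (n : ℕ) : g ^ n *ᵥ x = x := by
  induction n with
  | zero => rw [pow_zero, one_mulVec]
  | succ n ih => rw [pow_succ, ← mulVec_mulVec, h, ih]

theorem fix_of_pow {F : Type} [Field F] {g : Matrix (Fin N) (Fin N) F} {Q : F[X]} {n : ℕ}
    (hg : g.charpoly = (X - 1) * Q) (hQ : IsCoprime Q (X ^ n - 1)) {x : Fin N → F}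
    (h : g ^ n *ᵥ x = x) : g *ᵥ x = x := by
  obtain ⟨a, b, hab⟩ := hQ
  have h1 : (g - 1) * aeval g Q = 0 := by
    have h2 := Matrix.aeval_self_charpoly g
    rw [hg, map_mul, map_sub, aeval_X, map_one] at h2
    exact h2
  have h2 : aeval g a * aeval g Q + aeval g b * (g ^ n - 1) = 1 := by
    have h3 := congrArg (aeval g) hab
    simpa using h3
  have h3 : (g - 1) *ᵥ x = 0 := by
    calc (g - 1) *ᵥ x = ((g - 1) * (aeval g a * aeval g Q + aeval g b * (g ^ n - 1))) *ᵥ x := by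
          rw [h2, mul_one]
      _ = (aeval g a * ((g - 1) * aeval g Q)) *ᵥ x + ((g - 1) * aeval g b) *ᵥ ((g ^ n - 1) *ᵥ x) := by
          rw [mulVec_mulVec, ← add_mulVec]
          congr 1
          have h4 : Commute (g - 1) (aeval g a) := by
            have h5 : g - 1 = aeval g (X - 1 : F[X]) := by simp
            rw [h5]
            show aeval g (X - 1) * aeval g a = aeval g a * aeval g (X - 1)
            rw [← map_mul, ← map_mul, mul_comm]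
          rw [mul_add, ← mul_assoc, ← mul_assoc, h4.eq, mul_assoc, mul_assoc]
      _ = 0 := by
          rw [h1, mul_zero, zero_mulVec, sub_mulVec, one_mulVec, h, sub_self, mulVec_zero, add_zero]
  rw [sub_mulVec, one_mulVec, sub_eq_zero] at h3
  exact h3

/-- at a prime `ℓ` without Tate subquotient the discriminant ratios are the values of a form -/
theorem values (hALG : S_ALG) (hISO : S_ISO) (hLINE : S_LINE) (hTAN : S_TAN) (hLOG : S_LOG)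
    (hEXP : S_EXP) (hPOW : S_POW) (hSPEC : S_SPEC) (hAPP : S_APP) (hFROB : S_FROB) (hN : Odd N)
    (hS : S.Finite) {v₀ : HeightOneSpectrum (𝓞 K)} {Q₀ : ℚ[X]} (hv₀ : GoodPlace S P v₀ Q₀)
    (h0 : ∀ x y z : ℂ, aeval x Q₀ = 0 → aeval y Q₀ = 0 → aeval z Q₀ = 0 → x * y ≠ z)
    (ℓ : ℕ) [hℓ : Fact ℓ.Prime] (hv₀ℓ : (ℓ : 𝓞 K) ∉ v₀.asIdeal)
    (ρ : GK K →* Matrix (Fin N) (Fin N) ℚ_[ℓ]) (B : Matrix (Fin N) (Fin N) ℚ_[ℓ])
    (hsys : Orthogonal K N ℓ ρ B S P) (hgood : ¬ TateSubquotient ℓ ρ) :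
    ∃ β₁ β₂ : ℚ_[ℓ], β₁ ≠ 0 ∧ β₂ ≠ 0 ∧ ∀ s t : ℚ_[ℓ], 1 + β₁ * s ^ 2 + β₂ * t ^ 2 ≠ 0 →
      ∃ v Q, GoodPlace S P v Q ∧ IsSquare ((algebraMap ℚ ℚ_[ℓ] (Q₀.eval 1 * Q₀.eval (-1) *
        (Q.eval 1 * Q.eval (-1)))) * (1 + β₁ * s ^ 2 + β₂ * t ^ 2)) := by
  obtain ⟨hcont, hB, hdet, hiso, hfrob⟩ := hsys
  have hiso' : ∀ g, Isom B (ρ g) := hiso
  obtain ⟨hv₀S, hP₀, hcop⟩ := hv₀
  -- the element `g`
  obtain ⟨σ₀, hσ₀⟩ := Pool.Agent.W401.Frob.exists_frob v₀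
  have hchar := hfrob v₀ hv₀S hv₀ℓ σ₀ hσ₀
  set g : Matrix (Fin N) (Fin N) ℚ_[ℓ] := ρ σ₀⁻¹ with hg
  set Q : ℚ_[ℓ][X] := Q₀.map (algebraMap ℚ ℚ_[ℓ]) with hQ
  have hchar' : g.charpoly = (X - 1) * Q := by
    rw [hchar, hP₀, Polynomial.map_mul, Polynomial.map_sub, map_X, Polynomial.map_one]
  have hcopQ : ∀ n : ℕ, 0 < n → IsCoprime Q (X ^ n - 1) := fun n hn => coprime_map (hcop n hn)
  have hQ0 := eval_ne_zero_of_coprime hcopQ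
  have hQ1 : Q.eval 1 ≠ 0 := left_ne_zero_of_mul hQ0
  obtain ⟨e, he, hbe⟩ := hLINE ℚ_[ℓ] N B g Q hB hdet (hiso' _) hchar' hQ1
  have hge : g *ᵥ e = e := by
    have h1 := he.2.1
    rw [sub_mulVec, one_mulVec, sub_eq_zero] at h1
    exact h1
  obtain ⟨𝔤, h𝔤, hbr, had, hskew⟩ := hTAN ℓ N (GK K) ρ
  have hskew' := hskew B hB hiso'
  have hinv : g⁻¹ = ρ σ₀ := by
    apply Matrix.inv_eq_right_inv
    rw [hg, ← map_mul, inv_mul_cancel, map_one]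
  have hQ₀0 : Q₀ ≠ 0 := by
    rintro rfl
    rw [hQ, Polynomial.map_zero, eval_zero] at hQ1
    exact hQ1 rfl
  have hspec : ∀ x y z : AlgebraicClosure ℚ_[ℓ], aeval x Q = 0 → aeval y Q = 0 → aeval z Q = 0 →
      x * y ≠ z := by
    intro x y z hx hy hz
    have conv : ∀ w : AlgebraicClosure ℚ_[ℓ], aeval w Q = 0 →
        eval₂ (Rat.castHom (AlgebraicClosure ℚ_[ℓ])) w Q₀ = 0 := by
      intro w hw
      rw [aeval_def, hQ, eval₂_map] at hw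
      rw [← hw]
      congr 1
    exact transfer hQ₀0 h0 _ x y z (conv x hx) (conv y hy) (conv z hz)
  have hsplit := hSPEC ℚ_[ℓ] N B g e Q 𝔤 hB hdet (hiso' _) hge hbe hchar' hspec hskew' (by
    intro Z hZ
    rw [hinv]
    have := had σ₀⁻¹ Z hZ
    rwa [inv_inv] at this)
  -- the logarithm
  obtain ⟨⟨U, hU, hnear⟩, hpow⟩ := hPOW ℓ N (GK K) ρ hcont
  obtain ⟨n, hn, hnU⟩ := hpow U hU σ₀⁻¹
  obtain ⟨⟨T, hT, hTker⟩, -⟩ := hLOG ℓ N (GK K) ρ (σ₀⁻¹ ^ n) (hnear _ hnU)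
  have hfix : ∀ x, ρ (σ₀⁻¹ ^ n) *ᵥ x = x ↔ g *ᵥ x = x := by
    intro x
    rw [map_pow, ← hg]
    exact ⟨fun h => fix_of_pow hchar' (hcopQ n hn) h, fun h => pow_fix h n⟩
  have hker : KerLine T e := by
    refine ⟨he.1, (hTker e).2 ((hfix e).2 hge), fun x hx => ?_⟩
    refine he.2.2 x ?_
    rw [sub_mulVec, one_mulVec, sub_eq_zero]
    exact (hfix x).1 ((hTker x).1 hx)
  rcases hALG ℚ_[ℓ] N B T e 𝔤 hB hskew' hbr hsplit ((h𝔤 T).2 hT) hker hbe with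
    ⟨W', W, hWW, hW⟩ | ⟨β₁, β₂, hβ₁, hβ₂, hval⟩
  · exfalso
    obtain ⟨U', hU', hUW⟩ := hEXP ℓ N (GK K) ρ hcont W' W hWW.le
      (fun X hX w hw => hW X ((h𝔤 X).2 hX) w hw)
    exact hgood ⟨U', W', W, hU', hWW, hUW⟩
  · refine ⟨β₁, β₂, hβ₁, hβ₂, fun s t hst => ?_⟩
    obtain ⟨T', hT', y, hy, hyy⟩ := hval s t
    have hyy0 : bil B y y ≠ 0 := by
      rw [hyy]
      exact mul_ne_zero hbe hst
    obtain ⟨O, hO, hOne, hOQ⟩ := hAPP ℓ N hN (GK K) ρ hcont B hB hdet hiso' T' y ((h𝔤 T').1 hT') hy hyy0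
    obtain ⟨v, hv, σ, hσ, hσO⟩ := hFROB K O hO hOne (S ∪ {v | (ℓ : 𝓞 K) ∈ v.asIdeal})
      (hS.union (finite_above ℓ hℓ.out))
    rw [Set.mem_union, not_or] at hv
    obtain ⟨Q', hQ', hQ'0, hQ'sq, hQ'cop⟩ := hOQ _ hσO
    have hPv : (P v).map (algebraMap ℚ ℚ_[ℓ]) = (X - 1) * Q' := by
      rw [← hQ']
      exact (hfrob v hv.1 hv.2 σ hσ).symm
    have hroot : (P v).IsRoot 1 := by
      have h1 := congrArg (eval 1) hPv
      rw [eval_mul, eval_sub, eval_X, eval_one, sub_self, zero_mul] at h1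
      have h2 := eval_map_rat (F := ℚ_[ℓ]) (P v) 1
      rw [map_one, h1] at h2
      exact (map_eq_zero _).1 h2.symm
    obtain ⟨Q'', hQ''⟩ := dvd_iff_isRoot.2 hroot
    rw [C_1] at hQ''
    have hQQ : Q''.map (algebraMap ℚ ℚ_[ℓ]) = Q' := by
      rw [hQ'', Polynomial.map_mul, Polynomial.map_sub, map_X, Polynomial.map_one] at hPv
      refine mul_left_cancel₀ ?_ hPv
      have := X_sub_C_ne_zero (1 : ℚ_[ℓ])
      rwa [C_1] at this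
    refine ⟨v, Q'', ⟨hv.1, hQ'', fun n hn => coprime_of_map (F := ℚ_[ℓ]) ?_⟩, ?_⟩
    · rw [hQQ]
      exact hQ'cop n hn
    · have h1 := hISO ℚ_[ℓ] N hN B g e Q hB hdet (hiso' _) hge hchar'
      have e1 : ∀ R : ℚ[X], algebraMap ℚ ℚ_[ℓ] (R.eval 1) = (R.map (algebraMap ℚ ℚ_[ℓ])).eval 1 := by
        intro R
        rw [← eval_map_rat, map_one]
      have e2 : ∀ R : ℚ[X], algebraMap ℚ ℚ_[ℓ] (R.eval (-1)) =
          (R.map (algebraMap ℚ ℚ_[ℓ])).eval (-1) := by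
        intro R
        rw [← eval_map_rat, map_neg, map_one]
      rw [map_mul, map_mul, map_mul, e1, e1, e2, e2, hQQ, ← hQ]
      obtain ⟨a, ha⟩ := h1
      obtain ⟨b, hb⟩ := hQ'sq
      rw [hyy] at hb
      refine ⟨a * b / (bil B e e * B.det), ?_⟩
      have h3 : bil B e e * B.det ≠ 0 := mul_ne_zero hbe hdet
      field_simp
      linear_combination (Q'.eval 1 * Q'.eval (-1) * (bil B e e * (1 + β₁ * s ^ 2 + β₂ * t ^ 2)) * B.det) * ha + (a * a) * hb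

/-- a Tate subquotient makes all discriminant ratios squares -/
theorem tate_square (hBAD : S_BAD) (hN : Odd N) {v₀ v : HeightOneSpectrum (𝓞 K)} {Q₀ Q : ℚ[X]}
    (hv₀ : GoodPlace S P v₀ Q₀) (hv : GoodPlace S P v Q) (ℓ : ℕ) [hℓ : Fact ℓ.Prime]
    (hv₀ℓ : (ℓ : 𝓞 K) ∉ v₀.asIdeal) (hvℓ : (ℓ : 𝓞 K) ∉ v.asIdeal)
    (ρ : GK K →* Matrix (Fin N) (Fin N) ℚ_[ℓ]) (B : Matrix (Fin N) (Fin N) ℚ_[ℓ])
    (hsys : Orthogonal K N ℓ ρ B S P) (htate : TateSubquotient ℓ ρ) :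
    IsSquare ((Q₀.eval 1 * Q₀.eval (-1) * (Q.eval 1 * Q.eval (-1)) : ℚ) : ℚ_[ℓ]) := by
  obtain ⟨-, hB, hdet, hiso, hfrob⟩ := hsys
  obtain ⟨σ₀, hσ₀⟩ := Pool.Agent.W401.Frob.exists_frob v₀
  obtain ⟨σ, hσ⟩ := Pool.Agent.W401.Frob.exists_frob v
  have h1 := hfrob v₀ hv₀.1 hv₀ℓ σ₀ hσ₀
  have h2 := hfrob v hv.1 hvℓ σ hσ
  rw [hv₀.2.1, Polynomial.map_mul, Polynomial.map_sub, map_X, Polynomial.map_one] at h1
  rw [hv.2.1, Polynomial.map_mul, Polynomial.map_sub, map_X, Polynomial.map_one] at h2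
  have h3 := hBAD ℓ N hN (GK K) ρ B hB hdet hiso htate _ _ _ _ h1 h2
    (fun n hn => coprime_map (hv₀.2.2 n hn)) (fun n hn => coprime_map (hv.2.2 n hn))
  have e1 : ∀ R : ℚ[X], algebraMap ℚ ℚ_[ℓ] (R.eval 1) = (R.map (algebraMap ℚ ℚ_[ℓ])).eval 1 := by
    intro R
    rw [← eval_map_rat, map_one]
  have e2 : ∀ R : ℚ[X], algebraMap ℚ ℚ_[ℓ] (R.eval (-1)) =
      (R.map (algebraMap ℚ ℚ_[ℓ])).eval (-1) := by
    intro R
    rw [← eval_map_rat, map_neg, map_one]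
  rw [← eq_ratCast (algebraMap ℚ ℚ_[ℓ]), map_mul, map_mul, map_mul, e1, e1, e2, e2]
  exact h3

/-- the set of primes `ℓ` with a Tate subquotient -/
def TateSet (ρ : ∀ (ℓ : ℕ) [Fact ℓ.Prime], GK K →* Matrix (Fin N) (Fin N) ℚ_[ℓ]) : Set ℕ :=
  {ℓ | ∃ _ : Fact ℓ.Prime, TateSubquotient ℓ (ρ ℓ)}

/-- a set of primes has natural density zero -/
def DensityZero (A : Set ℕ) : Prop :=
  Tendsto (fun n : ℕ => (Nat.card {ℓ : ℕ // ℓ ≤ n ∧ ℓ ∈ A} : ℝ) / (Nat.primeCounting n : ℝ))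
    atTop (𝓝 0)

theorem density_zero (hALG : S_ALG) (hISO : S_ISO) (hLINE : S_LINE) (hTAN : S_TAN) (hLOG : S_LOG)
    (hEXP : S_EXP) (hPOW : S_POW) (hSPEC : S_SPEC) (hAPP : S_APP) (hFROB : S_FROB) (hBAD : S_BAD)
    (hVAL : S_VAL) (hDENS : S_DENS) (hINF : S_INF) (hN : Odd N)
    (hS : S.Finite) {v₀ v₁ : HeightOneSpectrum (𝓞 K)} {Q₀ Q₁ : ℚ[X]} (hv₀ : GoodPlace S P v₀ Q₀)
    (h0 : ∀ x y z : ℂ, aeval x Q₀ = 0 → aeval y Q₀ = 0 → aeval z Q₀ = 0 → x * y ≠ z)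
    (hv₁ : GoodPlace S P v₁ Q₁)
    (hsq : ¬ IsSquare (Q₀.eval 1 * Q₀.eval (-1) * (Q₁.eval 1 * Q₁.eval (-1))))
    (ρ : ∀ (ℓ : ℕ) [Fact ℓ.Prime], GK K →* Matrix (Fin N) (Fin N) ℚ_[ℓ])
    (B : ∀ (ℓ : ℕ) [Fact ℓ.Prime], Matrix (Fin N) (Fin N) ℚ_[ℓ])
    (hsys : ∀ (ℓ : ℕ) [Fact ℓ.Prime], Orthogonal K N ℓ (ρ ℓ) (B ℓ) S P) :
    DensityZero (TateSet ρ) := by
  set R : Set ℚ := {r | ∃ v Q, GoodPlace S P v Q ∧
    r = Q₀.eval 1 * Q₀.eval (-1) * (Q.eval 1 * Q.eval (-1))} with hR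
  have hR0 : ∀ r ∈ R, r ≠ 0 := by
    rintro r ⟨v, Q, hv, rfl⟩
    exact mul_ne_zero (eval_ne_zero_of_coprime hv₀.2.2) (eval_ne_zero_of_coprime hv.2.2)
  have hsquare : ∀ r ∈ R, ∃ M : ℕ, ∀ ℓ : ℕ, M < ℓ → ∀ _ : Fact ℓ.Prime,
      TateSubquotient ℓ (ρ ℓ) → IsSquare (r : ℚ_[ℓ]) := by
    rintro r ⟨v, Q, hv, rfl⟩
    refine ⟨max (Ideal.absNorm v₀.asIdeal) (Ideal.absNorm v.asIdeal), fun ℓ hℓ hp ht => ?_⟩
    rw [max_lt_iff] at hℓ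
    exact tate_square hBAD hN hv₀ hv ℓ (not_mem_of_lt v₀ hp.out hℓ.1) (not_mem_of_lt v hp.out hℓ.2)
      (ρ ℓ) (B ℓ) (hsys ℓ) ht
  refine hDENS R (TateSet ρ) (fun h => hR0 0 h rfl) (fun ℓ hℓ => hℓ.1.out) ?_ ?_
  · intro M
    obtain ⟨M₁, hM₁⟩ := hsquare _ ⟨v₁, Q₁, hv₁, rfl⟩
    obtain ⟨ℓ, hℓ, hp, hℓsq⟩ := hINF _ hsq (max (max M 2) (max M₁ (Ideal.absNorm v₀.asIdeal)))
    simp only [max_lt_iff] at hℓ
    have hgood : ¬ TateSubquotient ℓ (ρ ℓ) := fun h => hℓsq (hM₁ ℓ hℓ.2.1 hp h)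
    obtain ⟨β₁, β₂, hβ₁, hβ₂, hval⟩ := values hALG hISO hLINE hTAN hLOG hEXP hPOW hSPEC hAPP hFROB
      hN hS hv₀ h0 ℓ (not_mem_of_lt v₀ hp.out hℓ.2.2) (ρ ℓ) (B ℓ) (hsys ℓ) hgood
    obtain ⟨s, t, hst, hodd⟩ := hVAL ℓ (by omega) β₁ β₂ hβ₁ hβ₂
    obtain ⟨v, Q, hv, hvsq⟩ := hval s t hst
    refine ⟨ℓ, hℓ.1.1, hp.out, _, ⟨v, Q, hv, rfl⟩, ?_⟩
    set r : ℚ := Q₀.eval 1 * Q₀.eval (-1) * (Q.eval 1 * Q.eval (-1)) with hr
    have hr0 : r ≠ 0 := hR0 r ⟨v, Q, hv, rfl⟩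
    rw [eq_ratCast] at hvsq
    obtain ⟨a, ha⟩ := hvsq
    have hr0' : (r : ℚ_[ℓ]) ≠ 0 := by exact_mod_cast hr0
    have ha0 : a ≠ 0 := by
      rintro rfl
      rw [mul_zero] at ha
      exact mul_ne_zero hr0' hst ha
    have h1 := congrArg Padic.valuation ha
    rw [Padic.valuation_mul hr0' hst, Padic.valuation_mul ha0 ha0, Padic.valuation_ratCast] at h1
    have h2 : Even (padicValRat ℓ r + Padic.valuation (1 + β₁ * s ^ 2 + β₂ * t ^ 2)) := ⟨_, h1⟩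
    rw [Int.even_add, ← Int.not_odd_iff_even, ← Int.not_odd_iff_even] at h2
    by_contra h3
    exact (h2.1 h3) hodd
  · intro r hr
    obtain ⟨M, hM⟩ := hsquare r hr
    refine ⟨M, fun ℓ hℓ hMℓ hp => ?_⟩
    obtain ⟨hp', ht⟩ := hℓ
    exact hM ℓ hMℓ hp ht

/-- **the zero-one law** -/
theorem zero_one (hALG : S_ALG) (hISO : S_ISO) (hLINE : S_LINE) (hTAN : S_TAN) (hLOG : S_LOG)
    (hEXP : S_EXP) (hPOW : S_POW) (hSPEC : S_SPEC) (hAPP : S_APP) (hFROB : S_FROB) (hBAD : S_BAD)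
    (hVAL : S_VAL) (hVAL2 : S_VAL2) (hDENS : S_DENS) (hINF : S_INF) (hN : Odd N)
    (hS : S.Finite) {v₀ : HeightOneSpectrum (𝓞 K)} {Q₀ : ℚ[X]} (hv₀ : GoodPlace S P v₀ Q₀)
    (h0 : ∀ x y z : ℂ, aeval x Q₀ = 0 → aeval y Q₀ = 0 → aeval z Q₀ = 0 → x * y ≠ z)
    (ρ : ∀ (ℓ : ℕ) [Fact ℓ.Prime], GK K →* Matrix (Fin N) (Fin N) ℚ_[ℓ])
    (B : ∀ (ℓ : ℕ) [Fact ℓ.Prime], Matrix (Fin N) (Fin N) ℚ_[ℓ])
    (hsys : ∀ (ℓ : ℕ) [Fact ℓ.Prime], Orthogonal K N ℓ (ρ ℓ) (B ℓ) S P) :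
    (∀ (ℓ : ℕ) [Fact ℓ.Prime], (ℓ : 𝓞 K) ∉ v₀.asIdeal → TateSubquotient ℓ (ρ ℓ)) ∨
      DensityZero (TateSet ρ) := by
  by_cases hall : ∀ (ℓ : ℕ) [Fact ℓ.Prime], (ℓ : 𝓞 K) ∉ v₀.asIdeal → TateSubquotient ℓ (ρ ℓ)
  · exact Or.inl hall
  · right
    push Not at hall
    obtain ⟨ℓ, hp, hℓ, hgood⟩ := hall
    obtain ⟨β₁, β₂, hβ₁, hβ₂, hval⟩ := values hALG hISO hLINE hTAN hLOG hEXP hPOW hSPEC hAPP hFROB
      hN hS hv₀ h0 ℓ hℓ (ρ ℓ) (B ℓ) (hsys ℓ) hgood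
    obtain ⟨s, hs, hsq⟩ := hVAL2 ℓ β₁ hβ₁
    obtain ⟨v, Q, hv, hvsq⟩ := hval s 0 (by simpa using hs)
    refine density_zero hALG hISO hLINE hTAN hLOG hEXP hPOW hSPEC hAPP hFROB hBAD hVAL hDENS hINF
      hN hS hv₀ h0 hv ?_ ρ B hsys
    rintro ⟨a, ha⟩
    apply hsq
    rw [ha, map_mul] at hvsq
    have ha0 : a ≠ 0 := by
      rintro rfl
      rw [mul_zero] at ha
      exact mul_ne_zero (eval_ne_zero_of_coprime hv₀.2.2) (eval_ne_zero_of_coprime hv.2.2) ha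
    have ha0' : algebraMap ℚ ℚ_[ℓ] a ≠ 0 := (_root_.map_ne_zero _).2 ha0
    obtain ⟨b, hb⟩ := hvsq
    refine ⟨b / algebraMap ℚ ℚ_[ℓ] a, ?_⟩
    field_simp
    linear_combination hb

end

end Pool.Agent.Y142.ZO
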